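import Mathlib
import Pool.Agent.H343R2.EH.Defs

/-! Statements for MP_d8321d_nt (project H295-NA): the number `N(x)` of non-arithmetic `n ≤ x` is
`~ x ∑_l 2^{-l} (log x)^{-1/(l-1)}` (sum over primes `l`). -/

set_option autoImplicit false

open Finset ArithmeticFunction Filter Topology

namespace Pool.Agent.H295R3.NA

/-- `log log x` -/
noncomputable def LL (x : ℕ) : ℝ := Real.log (Real.log x)

/-- reciprocal sum of the primes `q ≤ x` with `r ∣ q + 1` -/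
noncomputable def RS (r x : ℕ) : ℝ := ∑ q ∈ (Icc 1 x).filter (fun q : ℕ => q.Prime ∧ r ∣ q + 1), (1 : ℝ) / q

/-- `m` has no prime factor `q` with `l ∣ q + 1` -/
def Free (l m : ℕ) : Prop := ∀ q : ℕ, q.Prime → l ∣ q + 1 → ¬ q ∣ m

open Classical in
/-- number of free `m ≤ Y` -/
noncomputable def GG (l Y : ℕ) : ℝ := (((Icc 1 Y).filter (fun m => Free l m)).card : ℝ)

open Classical in
/-- harmonic sum of the free `m ≤ Y` -/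
noncomputable def HH (l Y : ℕ) : ℝ := ∑ m ∈ (Icc 1 Y).filter (fun m => Free l m), (1 : ℝ) / m

/-- `(log Y)^{-1/(l-1)}` -/
noncomputable def EE (l Y : ℕ) : ℝ := Real.exp (-(LL Y) / ((l : ℝ) - 1))

/-- number of primes `q ∥ n` with `r ∣ q + 1` -/
def cnt (r n : ℕ) : ℕ := (n.primeFactors.filter (fun q => ¬ q ^ 2 ∣ n ∧ r ∣ q + 1)).card

/-- number of divisors -/
def dd (n : ℕ) : ℕ := n.divisors.card

/-- sum of divisors -/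
def ss (n : ℕ) : ℕ := ∑ d ∈ n.divisors, d

/-- the `l`-adic obstruction to `d(n) ∣ σ(n)` -/
def Bad (l n : ℕ) : Prop := padicValNat l (ss n) < padicValNat l (dd n)

open Classical in
/-- counting function of a property up to `x` -/
noncomputable def Nb (P : ℕ → Prop) (x : ℕ) : ℝ := (((Icc 1 x).filter (fun n => P n)).card : ℝ)

/-- INPUT: PNT in progressions, moduli up to `(log x)^2` (= `Pool.Agent.H387R2.Uni.siegel`) -/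
def PAP : Prop := ∃ x0 : ℕ, ∀ x : ℕ, x0 ≤ x → ∀ q : ℕ, 1 ≤ q → (q : ℝ) ≤ Real.log x ^ 2 →
    ∀ a : ℕ, a < q → a.Coprime q → |H343E.piAP x q a - H343E.pi1 x / (Nat.totient q : ℝ)| ≤
      x / Real.log x ^ 6

/-- Mertens in progressions, bounded error -/
def MAP1 : Prop := ∃ C : ℝ, ∃ x0 : ℕ, 0 < C ∧ ∀ x : ℕ, x0 ≤ x → ∀ r : ℕ, (r.Prime ∨ r = 4) →
  (r : ℝ) ^ 2 ≤ 1000 * LL x → |RS r x - LL x / (Nat.totient r : ℝ)| ≤ C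
def TaskMAP1 : Prop := PAP → MAP1

/-- Mertens in progressions, `o(1)` error for large `l` -/
def MAP2 : Prop := ∀ ε : ℝ, 0 < ε → ∃ l0 x0 : ℕ, ∀ x : ℕ, x0 ≤ x → ∀ l : ℕ, l.Prime → l0 ≤ l →
  (l : ℝ) ^ 2 ≤ 1000 * LL x → |RS l x - LL x / ((l : ℝ) - 1)| ≤ ε
def TaskMAP2 : Prop := PAP → MAP2

/-- `∑ log q/q` over the primes `q ≤ Y`, `l ∣ q + 1`, is small -/
def LQ : Prop := ∀ ε : ℝ, 0 < ε → ∃ l0 Y0 : ℕ, ∀ Y : ℕ, Y0 ≤ Y → ∀ l : ℕ, l.Prime → l0 ≤ l →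
  (l : ℝ) ^ 2 ≤ 500 * LL Y →
  ∑ q ∈ (Icc 1 Y).filter (fun q : ℕ => q.Prime ∧ l ∣ q + 1), Real.log q / q ≤ ε * Real.log Y
def TaskLQ : Prop := MAP2 → LQ

/-- harmonic sums -/
def HS : Prop := ∀ ε : ℝ, 0 < ε → ∃ l0 Y0 : ℕ, ∀ Y : ℕ, Y0 ≤ Y → ∀ l : ℕ, l.Prime → l0 ≤ l →
  (l : ℝ) ^ 2 ≤ 500 * LL Y → |HH l Y - Real.log Y * EE l Y| ≤ ε * (Real.log Y * EE l Y)
def TaskHLow : Prop := MAP2 → ∀ ε : ℝ, 0 < ε → ∃ l0 Y0 : ℕ, ∀ Y : ℕ, Y0 ≤ Y → ∀ l : ℕ, l.Prime → l0 ≤ l →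
  (l : ℝ) ^ 2 ≤ 500 * LL Y → (1 - ε) * (Real.log Y * EE l Y) ≤ HH l Y
def TaskHUp : Prop := MAP2 → LQ → ∀ ε : ℝ, 0 < ε → ∃ l0 Y0 : ℕ, ∀ Y : ℕ, Y0 ≤ Y → ∀ l : ℕ, l.Prime → l0 ≤ l →
  (l : ℝ) ^ 2 ≤ 500 * LL Y → HH l Y ≤ (1 + ε) * (Real.log Y * EE l Y)

/-- Chebyshev sums of the excluded primes are small -/
def PSI : Prop := ∀ ε : ℝ, 0 < ε → ∃ l0 : ℕ, ∃ C : ℝ, 0 < C ∧ ∀ l : ℕ, l.Prime → l0 ≤ l → ∀ y : ℕ,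
  ∑ q ∈ (Icc 1 y).filter (fun q : ℕ => q.Prime ∧ l ∣ q + 1), Real.log q ≤ ε * y + C
def TaskPSI : Prop := PAP → PSI

/-- counting function of the free numbers -/
def SV : Prop := ∀ ε : ℝ, 0 < ε → ∃ l0 Y0 : ℕ, ∀ Y : ℕ, Y0 ≤ Y → ∀ l : ℕ, l.Prime → l0 ≤ l →
  (l : ℝ) ^ 2 ≤ 500 * LL Y → |GG l Y - Y * EE l Y| ≤ ε * (Y * EE l Y)
def TaskSV : Prop := HS → PSI → SV

/-- Rankin / Hall-Tenenbaum upper bound -/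
def RK : Prop := ∃ C : ℝ, 0 < C ∧ ∀ Y r k : ℕ, 2 ≤ Y → 1 ≤ r →
  Nb (fun m => cnt r m ≤ k) Y ≤ C * 100 ^ k * Y * Real.exp (-(99 / 100) * RS r Y)
def TaskRK : Prop := RK

/-- valuations of `σ` -/
def F1 : Prop := ∀ l n : ℕ, l.Prime → 1 ≤ n → cnt l n ≤ padicValNat l (ss n)
def TaskF1 : Prop := F1
def F2 : Prop := ∀ n : ℕ, 1 ≤ n →
  padicValNat 2 (dd n) + cnt 4 n ≤ padicValNat 2 (ss n) + padicValNat 2 (padicValNat 2 n + 1)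
def TaskF2 : Prop := F2

/-- odd `l`, crude bound -/
def SM : Prop := ∃ C : ℝ, ∃ x0 : ℕ, 0 < C ∧ ∀ x : ℕ, x0 ≤ x → ∀ l : ℕ, l.Prime → l ≠ 2 →
  (l : ℝ) ^ 2 ≤ 900 * LL x → Nb (Bad l) x ≤ C * x * Real.exp (-(99 / 100) * LL x / ((l : ℝ) - 1))
def TaskSM : Prop := RK → MAP1 → F1 → SM

/-- odd `l`, `n` bad at `l` but not of the main type -/
def MI : Prop := ∃ C : ℝ, ∃ x0 l0 : ℕ, 0 < C ∧ ∀ x : ℕ, x0 ≤ x → ∀ l : ℕ, l.Prime → l0 ≤ l →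
  (l : ℝ) ^ 2 ≤ 900 * LL x →
  Nb (fun n => Bad l n ∧ ¬ (padicValNat 2 n = l - 1 ∧ cnt l n = 0)) x ≤
    C * (1 / 3) ^ l * x * Real.exp (-(99 / 100) * LL x / ((l : ℝ) - 1))
def TaskMI : Prop := RK → MAP1 → F1 → MI

/-- `l = 2` -/
def TW : Prop := ∃ C : ℝ, ∃ x0 : ℕ, 0 < C ∧ ∀ x : ℕ, x0 ≤ x →
  Nb (Bad 2) x ≤ C * x * Real.exp (-(49 / 100) * LL x)
def TaskTW : Prop := RK → MAP1 → F2 → TW

/-- large `l` -/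
def TL : Prop := ∀ x K : ℕ, 2 ≤ K →
  Nb (fun n => ∃ l : ℕ, l.Prime ∧ K < l ∧ Bad l n) x ≤ 4 * x / 2 ^ K
def TaskTL : Prop := TL

/-- main terms, upper bound -/
def UP : Prop := ∀ ε : ℝ, 0 < ε → ∃ l0 x0 : ℕ, ∀ x : ℕ, x0 ≤ x → ∀ l : ℕ, l.Prime → l0 ≤ l →
  (l : ℝ) ^ 2 ≤ 400 * LL x →
  Nb (fun n => padicValNat 2 n = l - 1 ∧ cnt l n = 0) x ≤ (1 + ε) * ((1 / 2) ^ l * x * EE l x)
def TaskUP : Prop := SV → UP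

/-- main terms, lower bound -/
def LO : Prop := ∀ ε : ℝ, 0 < ε → ∃ l0 x0 : ℕ, ∀ x : ℕ, x0 ≤ x → ∀ l : ℕ, l.Prime → l0 ≤ l →
  (l : ℝ) ^ 2 ≤ 400 * LL x →
  (1 - ε) * ((1 / 2) ^ l * x * EE l x) ≤ Nb (fun n => padicValNat 2 n = l - 1 ∧ ¬ l ∣ ss n) x
def TaskLO : Prop := SV → LO

/-- the main term `∑_l 2^{-l} (log x)^{-1/(l-1)}` -/
noncomputable def MM (x : ℕ) : ℝ := ∑' l : Nat.Primes, (1 / 2 : ℝ) ^ (l : ℕ) * EE l x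

/-- lower bound for the main term, and concentration of the sum on `√LL/8 < l ≤ 10 √LL` -/
def MT : Prop := (∃ x0 : ℕ, ∀ x : ℕ, x0 ≤ x → Real.exp (-(17 / 10) * √(LL x)) ≤ MM x) ∧
  Summable (fun l : Nat.Primes => (1 / 2 : ℝ) ^ (l : ℕ)) ∧
  ∀ ε : ℝ, 0 < ε → ∃ x0 : ℕ, ∀ x : ℕ, x0 ≤ x →
    (1 - ε) * MM x ≤ ∑ l ∈ (Icc 1 ⌊10 * √(LL x)⌋₊).filter (fun l : ℕ => l.Prime ∧ √(LL x) / 8 < (l : ℝ)),
      (1 / 2 : ℝ) ^ l * EE l x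
def TaskMT : Prop := MT

/-- non-arithmetic numbers -/
def NonArith (n : ℕ) : Prop := ¬ dd n ∣ ss n

/-- final assembly -/
def TaskFIN : Prop := SM → MI → TW → TL → UP → LO → MT →
  Tendsto (fun x : ℕ => Nb NonArith x / (x * MM x)) atTop (𝓝 1)

end Pool.Agent.H295R3.NA
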