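import Pool.Agent.H295R3.NA.Stmts

/-! Part B statements for MP_d8321d_nt (project H295-NA): the closed form, in the mean. -/

set_option autoImplicit false

open Finset ArithmeticFunction Filter Topology

namespace Pool.Agent.H295R3.NA

/-- the main term as a function of `L = log log x` -/
noncomputable def MMr (L : ℝ) : ℝ :=
  ∑' l : Nat.Primes, (1 / 2 : ℝ) ^ (l : ℕ) * Real.exp (-L / (((l : ℕ) : ℝ) - 1))

/-- the closed form, as a function of `L = log log x` -/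
noncomputable def gg (L : ℝ) : ℝ :=
  √Real.pi * L ^ (1 / 4 : ℝ) * Real.exp (-2 * √(L * Real.log 2)) / ((Real.log 2) ^ (3 / 4 : ℝ) * Real.log L)

/-- mean of `MMr/gg` -/
def AV : Prop := Tendsto (fun Y : ℝ => (1 / Y) * ∫ y in Y..(2 * Y),
  MMr (y ^ 2 * Real.log 2) / gg (y ^ 2 * Real.log 2)) atTop (𝓝 1)
def TaskAV : Prop := AV

/-- upper bound (Brun-Titchmarsh) -/
def UB : Prop := ∃ C L0 : ℝ, 0 < C ∧ ∀ L : ℝ, L0 ≤ L → MMr L ≤ C * gg L
def TaskUB : Prop := UB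

/-- `x = exp(exp(y² log 2))`, i.e. `y = √(log log x/log 2)` -/
noncomputable def xx (y : ℝ) : ℝ := Real.exp (Real.exp (y ^ 2 * Real.log 2))

/-- asymptotics along real `x` -/
def ASR : Prop := Tendsto (fun x : ℝ => Nb NonArith ⌊x⌋₊ / (x * MMr (Real.log (Real.log x)))) atTop (𝓝 1)
def TaskASR : Prop := Tendsto (fun x : ℕ => Nb NonArith x / (x * MM x)) atTop (𝓝 1) → ASR

/-- mean of `N(x)/(x g(x))` -/
def AVN : Prop := Tendsto (fun Y : ℝ => (1 / Y) * ∫ y in Y..(2 * Y),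
  (Nb NonArith ⌊xx y⌋₊ / xx y) / gg (y ^ 2 * Real.log 2)) atTop (𝓝 1)
def TaskAVN : Prop := ASR → AV → AVN

/-- the closed form is the only possible one -/
def UQ : Prop := ∀ h : ℝ → ℝ, Tendsto (fun x : ℝ => Nb NonArith ⌊x⌋₊ / (x * h x)) atTop (𝓝 1) →
  ∀ c : EReal, Tendsto (fun x : ℝ => ((h x / gg (Real.log (Real.log x)) : ℝ) : EReal)) atTop (𝓝 c) → c = 1
def TaskUQ : Prop := AVN → UQ

end Pool.Agent.H295R3.NA
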