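import Pool.Agent.H295R3.NA.Stmts
import Pool.Agent.H295R3.NA.StmtsB

set_option autoImplicit false

open Finset ArithmeticFunction Filter Topology

namespace Pool.Agent.H295R3.NA

theorem hs_of (h1 : TaskHLow) (h2 : TaskHUp) (hM : MAP2) (hL : LQ) : HS := by
  intro ε hε
  obtain ⟨l1, Y1, a1⟩ := h1 hM ε hε
  obtain ⟨l2, Y2, a2⟩ := h2 hM hL ε hε
  refine ⟨max l1 l2, max Y1 Y2, fun Y hY l hl hl0 hsq => ?_⟩
  have b1 := a1 Y ((le_max_left _ _).trans hY) l hl ((le_max_left _ _).trans hl0) hsq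
  have b2 := a2 Y ((le_max_right _ _).trans hY) l hl ((le_max_right _ _).trans hl0) hsq
  rw [abs_le]
  constructor <;> nlinarith

end Pool.Agent.H295R3.NA
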