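import Pool.Agent.H295R3.NA.Asm
import Pool.Agent.H495R3.NA.TaskRK
import Pool.Agent.H856R3.NA.TaskF
import Pool.Agent.H915R3.NA.TaskSV
import Pool.Agent.H676R4.NA.TaskAS
import Pool.Agent.H589R3.NA.TaskMT
import Pool.Agent.H201R3.NA.UP
import Pool.Agent.H988R3.NA.TaskLO
import Pool.Agent.H398R3.NA.SM
import Pool.Agent.H184R4.NA.TaskHUp
import Pool.Agent.H32R3.NA.FIN
import Pool.Agent.H331R3.NA.TaskHLow
import Pool.Agent.H531R3.NA.TaskLQ
import Pool.Agent.H544R3.NA.TaskPSI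
import Pool.Agent.H554R3.NA.TaskMAP
import Pool.Agent.H606R4.NA.TaskTW
import Pool.Agent.Helper923.NA.TaskMI
import Pool.Agent.H387R2.U3

set_option autoImplicit false

open Finset ArithmeticFunction Filter Topology

namespace Pool.Agent.H295R3.NA

theorem pap : PAP := Pool.Agent.H387R2.Uni.siegel
theorem map1 : MAP1 := Pool.Agent.H554R3.NAMap.taskMAP1 pap
theorem map2 : MAP2 := Pool.Agent.H554R3.NAMap.taskMAP2 pap
theorem lq : LQ := Pool.Agent.H531R3.NA.taskLQ map2
theorem hs : HS := hs_of Pool.Agent.H331R3.NA.taskHLow Pool.Agent.H184R4.NA.taskHUp map2 lq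
theorem psi : PSI := Pool.Agent.H544R3.NA.taskPSI pap
theorem sv : SV := taskSV hs psi
theorem rk : RK := Pool.Agent.H495R3.NA.taskRK
theorem f1 : F1 := Pool.Agent.H856R3.NA.taskF1
theorem f2 : F2 := Pool.Agent.H856R3.NA.taskF2
theorem sm : SM := Pool.Agent.H398R3.NA.taskSM rk map1 f1
theorem mi : MI := Pool.Agent.Helper923.NA.taskMI rk map1 f1
theorem tw : TW := Pool.Agent.H606R4.NA.taskTW rk map1 f2
theorem tl : TL := Pool.Agent.H606R4.NA.taskTL
theorem up : UP := Pool.Agent.H201R3.NAUP.taskUP sv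
theorem lo : LO := Pool.Agent.H988R3.NA.taskLO sv
theorem mt : MT := Pool.Agent.H589R3.NAMT.taskMT

theorem nat_result : Tendsto (fun x : ℕ => Nb NonArith x / (x * MM x)) atTop (𝓝 1) :=
  Pool.Agent.H32R3.NA.taskFIN sm mi tw tl up lo mt

theorem asr : ASR := Pool.Agent.H676R4.NA.taskASR nat_result

end Pool.Agent.H295R3.NA
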