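import Pool.Agent.H295R3.NA.Final
import Pool.Agent.H446R3.NA.TaskAV
import Pool.Agent.H935R3.NA.UQ

set_option autoImplicit false

open Finset ArithmeticFunction Filter Topology

namespace Pool.Agent.H295R3.NA

theorem avn : AVN := Pool.Agent.H676R4.NA.taskAVN asr Pool.Agent.H446R3.NA.taskAV

theorem uq : UQ := Pool.Agent.H935R3.NA.taskUQ avn

end Pool.Agent.H295R3.NA
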